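import Pool.Agent.K1H35.JA.Stm

/-!
# Project JA: primes with small sum and large product; the lower bound
-/

set_option autoImplicit false

namespace Pool.Agent.K1H1.JA

open Finset Filter Pool.Agent.K1H35.JA

theorem theta_half (y : ℕ) (hy : 100 ^ 4 ≤ y) : (y : ℝ) / 2 ≤ Chebyshev.theta y := by
  have h := Chebyshev.theta_ge y
  obtain ⟨t, ht⟩ : ∃ t : ℝ, t = (y : ℝ) ^ (1 / 4 : ℝ) := ⟨_, rfl⟩
  have ht0 : 0 ≤ t := by rw [ht]; positivity
  have ht4 : t ^ 4 = y := by
    rw [ht, ← Real.rpow_natCast, ← Real.rpow_mul (Nat.cast_nonneg _)]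
    norm_num
  have hy' : (100 : ℝ) ^ 4 ≤ y := by exact_mod_cast hy
  have ht100 : 100 ≤ t := by
    by_contra hc
    have := pow_lt_pow_left₀ (not_le.1 hc) ht0 (n := 4) (by norm_num)
    rw [ht4] at this
    linarith
  have hs : √(y : ℝ) = t ^ 2 := by
    rw [← ht4, show t ^ 4 = (t ^ 2) ^ 2 by ring, Real.sqrt_sq (by positivity)]
  have hl : Real.log y ≤ 4 * t := by
    have := Real.log_le_rpow_div (Nat.cast_nonneg y) (show (0 : ℝ) < 1 / 4 by norm_num)
    rw [← ht] at this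
    linarith
  have hl0 : 0 ≤ Real.log y := Real.log_natCast_nonneg y
  have hl1 : Real.log ((y : ℝ) + 1) ≤ 8 * t := by
    have h1 : (y : ℝ) + 1 ≤ (y : ℝ) ^ 2 := by nlinarith
    have h2 := Real.log_le_log (by positivity) h1
    rw [Real.log_pow] at h2
    push_cast at h2
    linarith
  have h2 := Real.log_two_gt_d9
  rw [hs] at h
  have h3 : 2 * t ^ 2 * Real.log y ≤ 8 * t ^ 3 := by
    have : 2 * t ^ 2 * Real.log y ≤ 2 * t ^ 2 * (4 * t) := by gcongr
    linarith
  have h4 : (y : ℝ) * 0.69 ≤ y * Real.log 2 := by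
    gcongr
    linarith
  have h5 : 8 * t + 8 * t ^ 3 ≤ 0.19 * (y : ℝ) := by
    rw [← ht4]
    nlinarith [pow_nonneg ht0 3, mul_nonneg (mul_nonneg ht0 ht0) (sub_nonneg.2 ht100),
      mul_nonneg (pow_nonneg ht0 3) (sub_nonneg.2 ht100), mul_nonneg ht0 (sub_nonneg.2 ht100)]
  linarith

theorem pi_ev : ∃ Y : ℕ, ∀ y : ℕ, Y ≤ y → (Nat.primeCounting y : ℝ) ≤ 3 * y / Real.log y := by
  have h := (tendsto_natCast_atTop_atTop (R := ℝ)).eventually
    (Chebyshev.eventually_primeCounting_le (ε := 1) one_pos)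
  obtain ⟨Y, hY⟩ := eventually_atTop.1 h
  refine ⟨Y, fun y hy => ?_⟩
  have h1 := hY y hy
  rw [Nat.floor_natCast] at h1
  refine h1.trans ?_
  have h2 : Real.log 4 + 1 ≤ 3 := by
    have h4 : Real.log 4 = 2 * Real.log 2 := by
      rw [show (4 : ℝ) = 2 ^ 2 by norm_num, Real.log_pow]
      norm_num
    have := Real.log_two_lt_d9
    linarith
  have h3 : 0 ≤ Real.log y := Real.log_natCast_nonneg y
  gcongr

/-- **Piece LOWB.** -/
theorem t_LOWB : S_LOWB := by
  obtain ⟨Y, hY⟩ := pi_ev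
  refine ⟨1 / 16, ⌈Real.exp 64⌉₊ + Y ^ 2 + (100 ^ 4) ^ 2 + 4, by norm_num, fun n hn => ?_⟩
  have hn64 : Real.exp 64 ≤ n := (Nat.le_ceil _).trans (by exact_mod_cast (by omega))
  have hnY : (Y : ℝ) ^ 2 ≤ n := by exact_mod_cast (show Y ^ 2 ≤ n by omega)
  have hnT : ((100 : ℝ) ^ 4) ^ 2 ≤ n := by exact_mod_cast (show (100 ^ 4) ^ 2 ≤ n by omega)
  have hn0 : (0 : ℝ) < n := (Real.exp_pos _).trans_le hn64
  have hn1 : (2 : ℝ) ≤ n := by exact_mod_cast (show 2 ≤ n by omega)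
  have hlog : 64 ≤ Real.log n := (Real.le_log_iff_exp_le hn0).2 hn64
  obtain ⟨s, hs⟩ : ∃ s : ℝ, s = √((n : ℝ) * Real.log n) := ⟨_, rfl⟩
  obtain ⟨r, hr⟩ : ∃ r : ℝ, r = √(n : ℝ) := ⟨_, rfl⟩
  have hr0 : 0 ≤ r := by rw [hr]; exact Real.sqrt_nonneg _
  have hr2 : r ^ 2 = n := by rw [hr]; exact Real.sq_sqrt hn0.le
  have hs2 : s ^ 2 = n * Real.log n := by
    rw [hs]
    exact Real.sq_sqrt (by positivity)
  have hs0 : 0 ≤ s := by rw [hs]; exact Real.sqrt_nonneg _
  have hsr : 8 * r ≤ s := by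
    apply le_of_sq_le_sq _ hs0
    rw [hs2]
    nlinarith
  have hr1 : (1 : ℝ) ≤ r := by
    by_contra hc
    nlinarith [not_le.1 hc]
  obtain ⟨y, hy⟩ : ∃ y : ℕ, y = ⌊s / 4⌋₊ := ⟨_, rfl⟩
  have hy1 : (y : ℝ) ≤ s / 4 := by rw [hy]; exact Nat.floor_le (by positivity)
  have hy2 : s / 4 < y + 1 := by rw [hy]; exact Nat.lt_floor_add_one _
  have hyr : r ≤ y := by linarith
  have hys : s / 8 ≤ y := by linarith
  have hYy : Y ≤ y := by
    have : (Y : ℝ) ≤ r := by
      apply le_of_sq_le_sq _ hr0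
      rw [hr2]
      exact hnY
    exact_mod_cast this.trans hyr
  have hTy : 100 ^ 4 ≤ y := by
    have : (100 : ℝ) ^ 4 ≤ r := by
      apply le_of_sq_le_sq _ hr0
      rw [hr2]
      exact hnT
    exact_mod_cast this.trans hyr
  have hlogy : Real.log n / 2 ≤ Real.log y := by
    have h1 : Real.log r = Real.log n / 2 := by
      rw [hr, Real.log_sqrt hn0.le]
    rw [← h1]
    exact Real.log_le_log (by linarith) hyr
  refine ⟨Nat.primesLE y, fun p hp => Nat.prime_of_mem_primesLE hp,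
    ⟨2, Nat.mem_primesLE.2 ⟨by omega, Nat.prime_two⟩⟩, ?_, ?_⟩
  · have h1 : ∑ p ∈ Nat.primesLE y, p ≤ Nat.primeCounting y * y := by
      calc ∑ p ∈ Nat.primesLE y, p ≤ ∑ p ∈ Nat.primesLE y, y :=
            Finset.sum_le_sum fun p hp => Nat.le_of_mem_primesLE hp
        _ = Nat.primeCounting y * y := by
            rw [Finset.sum_const, smul_eq_mul, Nat.primesLE_card_eq_primeCounting]
    have h2 : ((Nat.primeCounting y * y + 1 : ℕ) : ℝ) ≤ n := by
      push_cast
      have h3 := hY y hYy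
      have hly : 0 < Real.log y := by linarith
      have h4 : (Nat.primeCounting y : ℝ) * y ≤ 3 * y / Real.log y * y := by gcongr
      have h5 : 3 * (y : ℝ) / Real.log y * y ≤ 3 / 8 * n := by
        rw [div_mul_eq_mul_div, div_le_iff₀ hly]
        have h6 : (y : ℝ) * y ≤ s / 4 * (s / 4) := by gcongr
        have h7 : s / 4 * (s / 4) = n * Real.log n / 16 := by
          rw [← hs2]
          ring
        have h8 : 3 / 8 * (n : ℝ) * (Real.log n / 2) ≤ 3 / 8 * n * Real.log y := by gcongr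
        linarith
      linarith
    have h3 : Nat.primeCounting y * y + 1 ≤ n := by exact_mod_cast h2
    omega
  · have h1 := theta_half y hTy
    rw [Chebyshev.theta_eq_log_primorial, Nat.floor_natCast] at h1
    have h2 : (0 : ℝ) < primorial y := by exact_mod_cast primorial_pos y
    have h3 : Real.exp (1 / 16 * √((n : ℝ) * Real.log n)) ≤ primorial y := by
      rw [← Real.le_log_iff_exp_le h2, ← hs]
      linarith
    rw [primorial_eq_prod_primesLE] at h3
    exact h3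

/-- the automaton without transitions -/
def A0 (n k : ℕ) (hn : 2 ≤ n) : Aut n k where
  step := fun _ _ _ => False
  start := ⟨0, by omega⟩
  acc := fun _ => True

theorem JL_A0 (n k : ℕ) (hn : 2 ≤ n) (w : List (Fin k)) : w ∈ JL (A0 n k hn) ↔ w = [] := by
  constructor
  · rintro ⟨q, _, h⟩
    rcases Relation.ReflTransGen.cases_head h with h | ⟨c, h, _⟩
    · exact (Prod.mk.inj h).2
    · obtain ⟨_, _, _, h, _⟩ := h
      exact h.elim
  · rintro rfl
    exact ⟨_, trivial, Relation.ReflTransGen.refl⟩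

/-- a DFA for the empty word -/
def M0' (k : ℕ) : DFA (Fin k) (Fin 2) where
  step := fun _ _ => 1
  start := 0
  accept := {0}

theorem M0'_acc (n k : ℕ) (hn : 2 ≤ n) : (M0' k).accepts = JL (A0 n k hn) := by
  ext w
  rw [JL_A0, DFA.mem_accepts]
  constructor
  · intro h
    by_contra hw
    obtain ⟨v, a, rfl⟩ := List.eq_nil_or_concat w |>.resolve_left hw
    rw [DFA.eval, List.concat_eq_append, DFA.evalFrom_append_singleton] at h
    have h' : (1 : Fin 2) ∈ ({0} : Set (Fin 2)) := h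
    simp at h'
  · rintro rfl
    show (0 : Fin 2) ∈ ({0} : Set (Fin 2))
    simp

theorem sc_A0 (n k : ℕ) (hn : 2 ≤ n) (hk : 1 ≤ k) : 2 ≤ sc (JL (A0 n k hn)) := by
  have hne : {m | ∃ M : DFA (Fin k) (Fin m), M.accepts = JL (A0 n k hn)}.Nonempty :=
    ⟨2, M0' k, M0'_acc n k hn⟩
  obtain ⟨M, hM⟩ := Nat.sInf_mem hne
  change 2 ≤ sInf {m | ∃ M : DFA (Fin k) (Fin m), M.accepts = JL (A0 n k hn)}
  generalize sInf {m | ∃ M : DFA (Fin k) (Fin m), M.accepts = JL (A0 n k hn)} = m at M hM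
  by_contra hlt
  have hsub : ∀ x y : Fin m, x = y := by
    intro x y
    ext
    have := x.2
    have := y.2
    omega
  have h1 : ([] : List (Fin k)) ∈ M.accepts := by
    rw [hM, JL_A0]
  have h2 : ([⟨0, by omega⟩] : List (Fin k)) ∈ M.accepts := by
    rw [DFA.mem_accepts] at h1 ⊢
    rw [hsub (M.eval [⟨0, by omega⟩]) (M.eval [])]
    exact h1
  rw [hM, JL_A0] at h2
  simp at h2

/-- **Piece LOW.** -/
theorem t_LOW (hA : S_LOWA) (hB : S_LOWB) : S_LOW := by
  obtain ⟨c, n0, hc, h⟩ := hB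
  obtain ⟨S, hS⟩ : ∃ S : ℝ, S = √((n0 : ℝ) * Real.log n0) + 1 := ⟨_, rfl⟩
  have hS0 : 0 < S := by rw [hS]; positivity
  have hl2 : 0 < Real.log 2 := Real.log_pos (by norm_num)
  refine ⟨min c (Real.log 2 / S), lt_min hc (by positivity), fun n k hn hk => ?_⟩
  rcases le_or_gt n0 n with hnn | hnn
  · obtain ⟨V, hV1, hV2, hV3, hV4⟩ := h n hnn
    obtain ⟨A, hA1, hA2⟩ := hA n k V hk hV1 hV2 hV3
    refine ⟨A, hA1, ?_⟩
    refine le_trans ?_ (hV4.trans (by exact_mod_cast hA2))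
    refine Real.exp_le_exp.2 ?_
    exact mul_le_mul_of_nonneg_right (min_le_left _ _) (Real.sqrt_nonneg _)
  · refine ⟨A0 n k hn, ⟨Fin 2, inferInstance, M0' k, M0'_acc n k hn⟩, ?_⟩
    have h2 : (2 : ℝ) ≤ (sc (JL (A0 n k hn)) : ℝ) := by exact_mod_cast sc_A0 n k hn hk
    refine le_trans ?_ h2
    have h3 : √((n : ℝ) * Real.log n) ≤ S := by
      rw [hS]
      have h4 : (n : ℝ) ≤ n0 := by exact_mod_cast hnn.le
      have h5 : (1 : ℝ) ≤ n := by exact_mod_cast (by omega : 1 ≤ n)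
      have h6 : Real.log n ≤ Real.log n0 := Real.log_le_log (by linarith) h4
      have h7 : 0 ≤ Real.log n := Real.log_nonneg h5
      have h8 : √((n : ℝ) * Real.log n) ≤ √((n0 : ℝ) * Real.log n0) := by
        apply Real.sqrt_le_sqrt
        gcongr
      linarith
    have h4 : min c (Real.log 2 / S) * √((n : ℝ) * Real.log n) ≤ Real.log 2 := by
      calc min c (Real.log 2 / S) * √((n : ℝ) * Real.log n) ≤ Real.log 2 / S * S :=
            mul_le_mul (min_le_right _ _) h3 (Real.sqrt_nonneg _) (by positivity)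
        _ = Real.log 2 := div_mul_cancel₀ _ hS0.ne'
    calc Real.exp (min c (Real.log 2 / S) * √((n : ℝ) * Real.log n)) ≤
        Real.exp (Real.log 2) := Real.exp_le_exp.2 h4
      _ = 2 := Real.exp_log (by norm_num)

end Pool.Agent.K1H1.JA
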